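import Pool.Agent.Lib.MP_e6fef2_lc.Chain
import Pool.Agent.Lib.MP_c5d73d_lc.F.H62.Roapi

/-!
# Module DMR: refinement of `DM`, and strongly generic conditions
-/

set_option autoImplicit false

universe u

open Cardinal Filter

namespace Pool.Agent.Lib.MP_e6fef2_lc.H42

open Pool.Agent.Lib.MP_100a6c_lc Pool.Agent.Lib.MP_e6fef2_lc
open Pool.Agent.Lib.MP_c5d73d_lc.F (pr)
open Pool.Agent.Lib.MP_c5d73d_lc.F.H62 (pr_le_iff mem_reg pr_mono pr_ne_bot mem_pr_iff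
  self_mem_pr)

theorem exists_inf_ne_bot {B : Type u} [CompleteBooleanAlgebra B] {x : B} (hx : x ≠ ⊥)
    (D : Set B) (h : sSup D = ⊤) : ∃ d ∈ D, x ⊓ d ≠ ⊥ := by
  by_contra hcon
  push Not at hcon
  refine hx ?_
  rw [← inf_top_eq x, ← h, inf_sSup_eq, iSup₂_eq_bot]
  exact hcon

section

variable {S : Type u} [Preorder S]

theorem exists_pr_le {b : H1.RO S} (hb : b ≠ ⊥) : ∃ p, pr p ≤ b := by
  obtain ⟨p, hp⟩ := H1.exists_mem_of_ne_bot hb
  exact ⟨p, (pr_le_iff p b).2 hp⟩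

theorem exists_pr_le_inf {p : S} {b : H1.RO S} (hb : pr p ⊓ b ≠ ⊥) : ∃ q ≤ p, pr q ≤ b := by
  obtain ⟨r, hr⟩ := exists_pr_le hb
  have h1 := (pr_le_iff r _).1 (hr.trans inf_le_left)
  rw [mem_pr_iff] at h1
  obtain ⟨q, hq, hqp⟩ := h1 r le_rfl
  exact ⟨q, hqp, (pr_mono hq).trans (hr.trans inf_le_right)⟩

theorem pr_inf_eq_bot {s t : S} (h : ∀ r ≤ s, ¬ r ≤ t) : (pr s ⊓ pr t : H1.RO S) = ⊥ := by
  by_contra hne
  obtain ⟨q, hq, hqt⟩ := exists_pr_le_inf hne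
  have h1 := (pr_le_iff q _).1 hqt
  rw [mem_pr_iff] at h1
  obtain ⟨r, hr, hrt⟩ := h1 q le_rfl
  exact h r (hr.trans hq) hrt

end

theorem dmr (hclub : ClubStatement.{u}) (halg : AlgStatement.{u}) : DmrStatement.{u} := by
  classical
  obtain ⟨-, -, -, -, -, hfun, hfun2, -, -, -, -⟩ := hclub
  intro S _
  refine ⟨?_, ?_, ?_⟩
  · intro A _ ι M hι hDM a ha
    obtain ⟨-, -, -, -, -, -, -, -, -, -, -, -, -, -, -, -, -, -, hadj⟩ := halg _ _ ι hι
    obtain ⟨s, m, hm, hne, hle⟩ := hDM a ha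
    have h1 : pr s ⊓ prj ι m ≠ ⊥ := fun h => hne ((hadj m (pr s)).2 h)
    obtain ⟨s', hs', hs'm⟩ := exists_pr_le_inf h1
    refine ⟨s', m, hm, ?_, ?_, hs'm⟩
    · intro h
      have h2 := (hadj m (pr s')).1 h
      rw [inf_eq_left.2 hs'm] at h2
      exact pr_ne_bot s' h2
    · have h3 : ι (pr s') ≤ ι (pr s) := by
        obtain ⟨-, -, -, -, hmono, -⟩ := halg _ _ ι hι
        exact (hmono _ _).2 (pr_mono hs')
      exact (inf_le_inf_right m h3).trans hle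
  · let R : Set (H1.RO S) → Set S := fun D => {s | ∃ d ∈ D, pr s ≤ d}
    let g : Set (H1.RO S) → S → H1.RO S := fun D s =>
      if h : ∃ d ∈ D, pr s ≤ d then h.choose else ⊥
    filter_upwards [hfun _ _ R, hfun2 _ _ _ g] with N h1 h2
    intro s hs
    unfold gen
    refine le_iInf fun D => le_iInf fun hD => le_iInf fun hsup => ?_
    have hdense : ∀ p, ∃ q ≤ p, q ∈ R D := by
      intro p
      obtain ⟨d, hd, hne⟩ := exists_inf_ne_bot (pr_ne_bot p) D hsup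
      obtain ⟨q, hq, hqd⟩ := exists_pr_le_inf hne
      exact ⟨q, hq, d, hd, hqd⟩
    obtain ⟨t, htR, htN, hst⟩ := hs (R D) (h1 D hD) hdense
    have h5 : g D t = (show ∃ d ∈ D, pr t ≤ d from htR).choose := dif_pos htR
    have h6 := (show ∃ d ∈ D, pr t ≤ d from htR).choose_spec
    rw [← h5] at h6
    refine (pr_mono hst).trans (h6.2.trans ?_)
    exact le_iSup_of_le (g D t) (le_iSup_of_le h6.1 (le_iSup_of_le (h2 D t hD htN) le_rfl))
  · let R : S → Set S := fun t => {r | r ≤ t ∨ ∀ r' ≤ r, ¬ r' ≤ t}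
    filter_upwards [hfun _ _ R] with N h1
    intro s t hs ht
    have hdense : ∀ p, ∃ q ≤ p, q ∈ R t := by
      intro p
      by_cases h : ∃ q ≤ p, q ≤ t
      · obtain ⟨q, hq, hqt⟩ := h
        exact ⟨q, hq, Or.inl hqt⟩
      · push Not at h
        exact ⟨p, le_rfl, Or.inr h⟩
    obtain ⟨d, hdR, -, hsd⟩ := hs (R t) (h1 t ht) hdense
    rcases hdR with h | h
    · exact Or.inl (hsd.trans h)
    · exact Or.inr fun r hr => h r (hr.trans hsd)

end Pool.Agent.Lib.MP_e6fef2_lc.H42
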