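import Pool.Agent.Lib.MP_e6fef2_lc.H42.Dmr

/-!
# Module RDL: below a strongly generic condition the elements of `N` agree with elements of `M`
-/

set_option autoImplicit false

universe u

open Cardinal Filter

namespace Pool.Agent.Lib.MP_e6fef2_lc.H42

open Pool.Agent.Lib.MP_100a6c_lc Pool.Agent.Lib.MP_e6fef2_lc
open Pool.Agent.Lib.MP_c5d73d_lc.F (pr)
open Pool.Agent.Lib.MP_c5d73d_lc.F.H62 (pr_le_iff mem_reg pr_mono pr_ne_bot mem_pr_iff
  self_mem_pr)

section

variable {A : Type u} [CompleteBooleanAlgebra A] {M : Set A}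

theorem SigC.bot (h : SigC M) : (⊥ : A) ∈ M := by
  rw [← compl_top]
  exact h.compl _ h.top

theorem SigC.iSup_mem (h : SigC M) {α : Type*} [Countable α] (x : α → A) (hx : ∀ i, x i ∈ M) :
    ⨆ i, x i ∈ M := by
  rcases isEmpty_or_nonempty α with hα | hα
  · rw [iSup_of_empty]
    exact SigC.bot h
  · obtain ⟨f, hf⟩ := exists_surjective_nat α
    rw [← hf.iSup_comp]
    exact h.sup _ fun n => hx _

theorem SigC.iInf_mem (h : SigC M) {α : Type*} [Countable α] (x : α → A) (hx : ∀ i, x i ∈ M) :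
    ⨅ i, x i ∈ M := by
  rw [← compl_compl (⨅ i, x i), compl_iInf]
  exact h.compl _ (SigC.iSup_mem h _ fun i => h.compl _ (hx i))

end

theorem rdl (hclub : ClubStatement.{u}) (halg : AlgStatement.{u}) (hgen : GenStatement.{u})
    (hdmr : DmrStatement.{u}) : RdlStatement.{u} := by
  classical
  obtain ⟨-, hcount, -, hconst, -, hfun, hfun2, -, -, -, -⟩ := hclub
  intro S _ A _ ι M hι hDM hM
  obtain ⟨hdm1, -, hdec⟩ := hdmr S
  obtain ⟨-, hbot, hinf, -, hmono, -⟩ := halg _ _ ι hι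
  obtain ⟨hgen1, -⟩ := hgen A
  -- the relation and the functions in `N`
  let K : Set A → A → Set (S × A) := fun D z => {p | p.2 ∈ M ∧ ∃ d ∈ D, ι (pr p.1) ⊓ p.2 ≤ d ⊓ z}
  let φ : Set A → A → S × A → A := fun D z p => if p ∈ K D z then ι (pr p.1) ⊓ p.2 else ⊥
  let g : Set A → S × A → A := fun D p =>
    if h : ∃ d ∈ D, ι (pr p.1) ⊓ p.2 ≤ d then h.choose else ⊥
  have hφsup : ∀ (D : Set A) (z : A), sSup D = ⊤ → z ≤ ⨆ p, φ D z p := by
    intro D z hD
    by_contra hcon
    have h1 : z ⊓ (⨆ p, φ D z p)ᶜ ≠ ⊥ := by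
      intro h
      apply hcon
      rw [← compl_compl (⨆ p, φ D z p), le_compl_iff_disjoint_right, disjoint_iff]
      exact h
    obtain ⟨d, hd, hne⟩ := exists_inf_ne_bot h1 D hD
    obtain ⟨s, m, hm, hne2, hle⟩ := hDM _ hne
    have h2 : (s, m) ∈ K D z := by
      refine ⟨hm, d, hd, ?_⟩
      refine le_inf (hle.trans inf_le_right) (hle.trans (inf_le_left.trans inf_le_left))
    have h3 : ι (pr s) ⊓ m ≤ ⨆ p, φ D z p := by
      refine le_iSup_of_le (s, m) ?_
      exact le_of_eq (if_pos h2).symm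
    have h4 : ι (pr s) ⊓ m ≤ (⨆ p, φ D z p)ᶜ := hle.trans (inf_le_left.trans inf_le_right)
    apply hne2
    rw [← le_bot_iff, ← inf_compl_self (⨆ p, φ D z p)]
    exact le_inf h3 h4
  filter_upwards [hcount, hfun2 _ _ _ φ, hgen1 (S × A), hfun _ _ (Prod.fst : S × A → S),
    hfun2 _ _ _ g, hconst _ ({⊤} : Set A), hdec] with N hN h1 h2 h3 h4 h5 h6
  intro s hs z hz
  -- the approximations
  let J : Set A → Set (S × A) := fun D => {p | In N p ∧ p ∈ K D z ∧ s ≤ p.1}
  have hJ : ∀ D, Countable (J D) := by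
    intro D
    have : Function.Injective (fun p : J D => (⟨⟨S × A, p.1⟩, p.2.1⟩ : N)) := by
      intro p q h
      have h' := congrArg Subtype.val h
      simp only [Sigma.mk.injEq, heq_eq_eq, true_and] at h'
      exact Subtype.ext h'
    have : Countable N := hN.to_subtype
    exact Function.Injective.countable ‹_›
  let x : Set A → A := fun D => ⨆ p : J D, p.1.2
  have hx : ∀ D, x D ∈ M := fun D => SigC.iSup_mem hM _ fun p => p.2.2.1.1
  have hle1 : ∀ D, In N D → sSup D = ⊤ → ι (pr s) ⊓ (gen A N ⊓ z) ≤ x D := by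
    intro D hD hsup
    have e1 : gen A N ⊓ z ≤ ⨆ (p : S × A) (_ : In N p), φ D z p :=
      (inf_le_inf_left _ (hφsup D z hsup)).trans (h2 (φ D z) (h1 D z hD hz))
    refine (inf_le_inf_left _ e1).trans ?_
    rw [inf_iSup₂_eq]
    refine iSup₂_le fun p hp => ?_
    by_cases hK : p ∈ K D z
    · have e2 : φ D z p = ι (pr p.1) ⊓ p.2 := if_pos hK
      rw [e2]
      rcases h6 s p.1 hs (h3 p hp) with h | h
      · refine inf_le_right.trans (inf_le_right.trans ?_)
        exact le_iSup (fun q : J D => q.1.2) ⟨p, hp, hK, h⟩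
      · have e3 : ι (pr s) ⊓ ι (pr p.1) = ⊥ :=
          (hinf _ _).symm.trans ((congrArg ι (pr_inf_eq_bot h)).trans hbot)
        rw [← inf_assoc, e3, bot_inf_eq]
        exact bot_le
    · have e2 : φ D z p = ⊥ := if_neg hK
      rw [e2, inf_bot_eq]
      exact bot_le
  have hle2 : ∀ D, In N D → ι (pr s) ⊓ x D ≤ (⨆ (d : A) (_ : d ∈ D) (_ : In N d), d) ⊓ z := by
    intro D hD
    rw [inf_iSup_eq]
    refine iSup_le fun p => ?_
    obtain ⟨p, hp, hK, hsp⟩ := p
    have e1 : ι (pr s) ⊓ p.2 ≤ ι (pr p.1) ⊓ p.2 :=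
      inf_le_inf_right _ ((hmono _ _).2 (pr_mono hsp))
    obtain ⟨hpM, d, hd, hle⟩ := hK
    have e2 : ∃ d ∈ D, ι (pr p.1) ⊓ p.2 ≤ d := ⟨d, hd, hle.trans inf_le_left⟩
    have e3 : g D p = e2.choose := dif_pos e2
    have e4 := e2.choose_spec
    rw [← e3] at e4
    refine le_inf ?_ (e1.trans (hle.trans inf_le_right))
    refine e1.trans (e4.2.trans ?_)
    exact le_iSup_of_le (g D p) (le_iSup_of_le e4.1 (le_iSup_of_le (h4 D p hD hp) le_rfl))
  -- the infimum
  let T : Set (Set A) := {D | In N D ∧ sSup D = ⊤}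
  have hT : Countable T := by
    have : Function.Injective (fun p : T => (⟨⟨Set A, p.1⟩, p.2.1⟩ : N)) := by
      intro p q h
      have h' := congrArg Subtype.val h
      simp only [Sigma.mk.injEq, heq_eq_eq, true_and] at h'
      exact Subtype.ext h'
    have : Countable N := hN.to_subtype
    exact Function.Injective.countable ‹_›
  refine ⟨⨅ D : T, x D.1, SigC.iInf_mem hM _ fun D => hx _, ?_⟩
  apply le_antisymm
  · exact le_inf inf_le_left (le_iInf fun D => hle1 D.1 D.2.1 D.2.2)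
  · refine le_inf inf_le_left (le_inf ?_ ?_)
    · unfold gen
      refine le_iInf fun D => le_iInf fun hD => le_iInf fun hsup => ?_
      exact (inf_le_inf_left _ (iInf_le (fun D : T => x D.1) ⟨D, hD, hsup⟩)).trans
        ((hle2 D hD).trans inf_le_left)
    · exact (inf_le_inf_left _ (iInf_le (fun D : T => x D.1)
        ⟨{⊤}, h5, sSup_singleton⟩)).trans ((hle2 {⊤} h5).trans inf_le_right)

end Pool.Agent.Lib.MP_e6fef2_lc.H42
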