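import Pool.Agent.Lib.MP_e6fef2_lc.H42.Rdl

/-!
# Module RDM: relative density at limits
-/

set_option autoImplicit false

universe u

open Cardinal Filter

namespace Pool.Agent.Lib.MP_e6fef2_lc.H42

open Pool.Agent.Lib.MP_100a6c_lc Pool.Agent.Lib.MP_e6fef2_lc
open Pool.Agent.Lib.MP_c5d73d_lc.F (pr)
open Pool.Agent.Lib.MP_c5d73d_lc.F.H62 (pr_le_iff mem_reg pr_mono pr_ne_bot mem_pr_iff
  self_mem_pr)

/-- agreement below `s` passes to complements -/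
theorem inf_compl_congr {A : Type u} [BooleanAlgebra A] {s z x : A} (h : s ⊓ z = s ⊓ x) :
    s ⊓ zᶜ = s ⊓ xᶜ := by
  rw [← sdiff_eq, ← sdiff_eq, ← sdiff_inf_self_left s z, h, sdiff_inf_self_left]

theorem rdm (hclub : ClubStatement.{u}) (halg : AlgStatement.{u}) (hfus : FusStatement.{u})
    (hdmr : DmrStatement.{u}) (hrdl : RdlStatement.{u}) : RdmStatement.{u} := by
  classical
  obtain ⟨hex, -, -, -, hnorm, hfun, -, -, -, -, -⟩ := hclub
  intro S _ hS L _ _ A _ f C _ e ι M hch htop hTP hDP hpe hι hιpe hιf hsig hdm hmap M' hM' hMe i c hc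
  have he : ∀ i, IsCE (e i) := htop.ce
  have hecomp := htop.comp
  -- the composed embedding does not depend on the stage
  have hcomp : ∀ j k x, e j (ι j x) = e k (ι k x) := by
    have h1 : ∀ j k x, j ≤ k → e j (ι j x) = e k (ι k x) := by
      intro j k x hjk
      rw [← hecomp j k hjk, hιf j k hjk]
    intro j k x
    rcases le_total j k with h | h
    · exact h1 j k x h
    · exact (h1 k j x h).symm
  -- choice of a condition below an element of `RO S`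
  obtain ⟨p0, -⟩ : ∃ p : S, pr p ≤ prj (ι i) (prj (e i) c) := by
    apply exists_pr_le
    intro h
    have h1 := halg _ _ (ι i) (hι i)
    have h2 := halg _ _ (e i) (he i)
    obtain ⟨-, -, -, -, -, -, -, -, -, -, -, -, -, -, -, -, -, hb1, -⟩ := h1
    obtain ⟨-, -, -, -, -, -, -, -, -, -, -, -, -, -, -, -, -, hb2, -⟩ := h2
    exact hc ((hb2 _).1 ((hb1 _).1 h))
  let g : C → S := fun c => if h : ∃ p : S, pr p ≤ prj (ι i) (prj (e i) c) then h.choose else p0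
  obtain ⟨N, hN, hZ, ⟨h1, h2⟩, h3, h4, h5, h6, h7⟩ := hex
    (fun N => ((∀ c : C, In N c → In N (prj (e i) c)) ∧ (∀ c : C, In N c → In N (g c))) ∧
      (∀ s : S, In N s → ∃ s' ≤ s, SG N s') ∧
      (∀ G : ∀ i, Set (A i), FC A f N G → ∀ i, In N i → ∀ c : C, In N c →
        ∀ a ∈ G i, a ≤ gen (A i) N ⊓ prj (e i) c →
        ∃ (j : ℕ → L) (q : ∀ n, A (j n)), Monotone j ∧ (∀ n, q n ∈ G (j n)) ∧ IsTh f j q ∧
          prj (e i) (⨅ n, e (j n) (q n)) = a ∧ ⨅ n, e (j n) (q n) ≤ gen C N ⊓ c) ∧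
      (∀ s : S, SG N s → pr s ≤ gen (H1.RO S) N) ∧
      (∀ j : L, In N j → ∀ s : S, SG N s → ∀ z : A j, In N z →
        ∃ x ∈ M j, ι j (pr s) ⊓ (gen (A j) N ⊓ z) = ι j (pr s) ⊓ x) ∧
      (∀ a : A i, In N a → gen (H1.RO S) N ⊓ prj (ι i) a ≤ prj (ι i) (gen (A i) N ⊓ a)))
    (by
      filter_upwards [hfun _ _ (prj (e i)), hfun _ _ g, hS,
        hfus L A f C e hch htop hTP hDP hpe, (hdmr S).2.1,
        hnorm L _ fun j => hrdl S (A j) (ι j) (M j) (hι j) (hdm j) (hsig j), hιpe i]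
        with N k1 k2 k3 k4 k5 k6 k7
      exact ⟨⟨k1, k2⟩, k3, k4, k5, k6, k7⟩)
    {⟨C, c⟩, ⟨L, i⟩} ((Set.countable_singleton _).insert _)
  have hcN : In N c := hZ (Set.mem_insert _ _)
  have hiN : In N i := hZ (Set.mem_insert_of_mem _ rfl)
  have hpN : In N (prj (e i) c) := h1 c hcN
  obtain ⟨htop1, hbot1, hinf1, -, hmono1, -, -, -, -, -, -, -, -, -, -, -, -, hb1, hadj1⟩ :=
    halg _ _ (ι i) (hι i)
  obtain ⟨htop2, hbot2, hinf2, -, hmono2, -, -, -, -, -, -, -, -, -, -, -, -, hb2, hadj2⟩ :=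
    halg _ _ (e i) (he i)
  have hex2 : ∃ p : S, pr p ≤ prj (ι i) (prj (e i) c) := by
    apply exists_pr_le
    intro h
    exact hc ((hb2 _).1 ((hb1 _).1 h))
  have hg : pr (g c) ≤ prj (ι i) (prj (e i) c) := by
    have h : g c = hex2.choose := dif_pos hex2
    rw [h]
    exact hex2.choose_spec
  obtain ⟨s, hst, hs⟩ := h3 (g c) (h2 c hcN)
  have hs1 : pr s ≤ gen (H1.RO S) N := h5 s hs
  have hs2 : pr s ≤ prj (ι i) (prj (e i) c) := (pr_mono hst).trans hg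
  have hs3 : pr s ≤ prj (ι i) (gen (A i) N ⊓ prj (e i) c) := (le_inf hs1 hs2).trans (h7 _ hpN)
  -- the value at the stage `i`
  let G : ∀ j, Set (A j) := fun j => {z | ∃ x ∈ M j, ι j (pr s) ⊓ z = ι j (pr s) ⊓ x}
  have hG : FC A f N G := by
    refine ⟨?_, ?_, ?_, ?_⟩
    · intro j x hx
      choose y hy hxy using hx
      refine ⟨⨆ n, y n, (hsig j).sup y hy, ?_⟩
      rw [inf_iSup_eq, inf_iSup_eq]
      exact iSup_congr hxy
    · rintro j z ⟨x, hx, hzx⟩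
      exact ⟨xᶜ, (hsig j).compl x hx, inf_compl_congr hzx⟩
    · intro j x hj hx
      obtain ⟨y, hy, hxy⟩ := h6 j hj s hs x hx
      exact ⟨y, hy, hxy⟩
    · rintro j k hjk z ⟨x, hx, hzx⟩
      obtain ⟨-, -, hinf, -⟩ := halg _ _ (f j k) (hch.ce j k hjk)
      refine ⟨f j k x, hmap j k hjk x hx, ?_⟩
      rw [← hιf j k hjk, ← hinf, ← hinf, hzx]
  have haG : ι i (pr s) ⊓ (gen (A i) N ⊓ prj (e i) c) ∈ G i := by
    obtain ⟨y, hy, hxy⟩ := h6 i hiN s hs _ hpN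
    refine ⟨y, hy, ?_⟩
    rw [← inf_assoc, inf_idem, hxy]
  have hane : ι i (pr s) ⊓ (gen (A i) N ⊓ prj (e i) c) ≠ ⊥ := by
    intro h
    have k1 := (hadj1 _ _).1 h
    have k2 : pr s ≤ (⊥ : H1.RO S) := by
      rw [← k1]
      exact le_inf le_rfl hs3
    exact pr_ne_bot s (le_bot_iff.1 k2)
  obtain ⟨j, q, hj, hq, -, hprj, hle⟩ := h4 G hG i hiN c hcN _ haG inf_le_right
  choose x hx hqx using hq
  have hxM : ⨅ n, e (j n) (x n) ∈ M' := SigC.iInf_mem hM' _ fun n => hMe _ _ (hx n)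
  have hkey : e i (ι i (pr s)) ⊓ ⨅ n, e (j n) (x n)
      = e i (ι i (pr s)) ⊓ ⨅ n, e (j n) (q n) := by
    rw [inf_iInf, inf_iInf]
    refine iInf_congr fun n => ?_
    obtain ⟨-, -, hinf, -⟩ := halg _ _ (e (j n)) (he (j n))
    rw [hcomp i (j n), ← hinf, ← hinf, hqx n]
  refine ⟨s, ⨅ n, e (j n) (x n), hxM, ?_, ?_⟩
  · show e i (ι i (pr s)) ⊓ ⨅ n, e (j n) (x n) ≠ ⊥
    rw [hkey]
    intro h
    have k1 := (hadj2 _ _).1 h
    rw [hprj, ← inf_assoc, inf_idem] at k1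
    exact hane k1
  · show e i (ι i (pr s)) ⊓ ⨅ n, e (j n) (x n) ≤ c
    rw [hkey]
    exact inf_le_right.trans (hle.trans inf_le_right)

end Pool.Agent.Lib.MP_e6fef2_lc.H42
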